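import Mathlib
import Pool.Agent.Lib_helper1.LogModulus.Defs
import Pool.Agent.Lib_helper1.LogModulus.Final

/-!
Negative answer to Q1 of MP_a6f573_an.  The example: `S` is the union of two closed unit discs
joined at their centres, `A` is the uniform closure of the polynomials in the two coordinates, and
`μ` is the sum of `P - 1/3` times normalized Lebesgue measure on the first boundary circle and
`1/3` times normalized Lebesgue measure on the second one, where `P` is the Poisson kernel of the
point `1/2` (its minimum is `1/3`).  The measure `μ` represents the point `1/2` of the first disc.
-/

open MeasureTheory Set Topology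
open Pool.Agent.LogModulus

namespace Pool.Agent.Results.MP_a6f573_an.NoGreatestInClosure

/-- There are a compact metrizable space `S`, an algebra `A` on it satisfying the standing
hypotheses and an extremal measure `μ`, even one that represents a point `s₀` of `S`, such that the
closure of `E(μ)` has no greatest element for the log-modulus order. -/
theorem result :
    ∃ (S : Type) (_ : TopologicalSpace S) (_ : CompactSpace S) (_ : T2Space S)
      (_ : TopologicalSpace.MetrizableSpace S) (_ : MeasurableSpace S) (_ : BorelSpace S)
      (A : Subalgebra ℂ C(S, ℂ)) (μ : FiniteMeasure S) (s₀ : S),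
      IsAdmissible A ∧ IsExtremal A μ ∧
        (∀ f ∈ A, ∫ s, f s ∂(μ : Measure S) = f s₀) ∧
        ∀ σ : FiniteMeasure S, ¬ IsGreatestIn A (closure (E A μ)) σ := by
  refine ⟨Wedge, inferInstance, inferInstance, inferInstance, inferInstance, inferInstance,
    inferInstance, Alg, seg 0, pt, isAdmissible_Alg, isExtremal_seg,
    fun f hf => integral_seg_eq zero_le f hf, ?_⟩
  rw [closure_E]
  exact not_greatest

end Pool.Agent.Results.MP_a6f573_an.NoGreatestInClosure
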